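import Pool.Agent.Y157.PC.Stm3
import Pool.Agent.Y293.PC.AC

/-!
# The number of the bad integers

(helper547, job PC-ACQ of helper157; adaptation of Pool.Agent.Y293.PC.AC of helper293.)
-/

set_option autoImplicit false
set_option linter.all false

namespace Pool.Agent.Y547.PCQ

open Pool.Agent.Y157.PS Pool.Agent.Y157.PC Pool.Agent.Y293.PC

/-- powers of the logarithm -/
theorem logpow (δ δ' : ℝ) (h : δ ≤ δ') :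
    ∃ K : ℝ, 0 ≤ K ∧ ∀ X : ℕ, 2 ≤ X →
      (Real.log X) ^ (-δ') ≤ K * (Real.log X) ^ (-δ) := by
  have h2 : 0 < Real.log 2 := Real.log_pos (by norm_num)
  refine ⟨(Real.log 2) ^ (-(δ' - δ)), (Real.rpow_pos_of_pos h2 _).le, fun X hX => ?_⟩
  have hX' : (2 : ℝ) ≤ X := by exact_mod_cast hX
  have hL : Real.log 2 ≤ Real.log X := Real.log_le_log (by norm_num) hX'
  have hL0 : 0 < Real.log X := lt_of_lt_of_le h2 hL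
  have e : -δ' = -(δ' - δ) + -δ := by ring
  rw [e, Real.rpow_add hL0]
  apply mul_le_mul_of_nonneg_right _ (Real.rpow_pos_of_pos hL0 _).le
  exact Real.rpow_le_rpow_of_nonpos h2 hL (by linarith)

/-- one homomorphism -/
theorem oneQ {κ Γ : Type} [Field κ] [Algebra ℚ κ] [IsAlgClosure ℚ κ] [Group Γ]
    (hCHQ : S_CHQ) (hSIEVQ : S_SIEVQ) (S : Finset ℕ)
    (E : IntermediateField ℚ κ) (hE : FiniteDimensional ℚ E) (c : (κ ≃ₐ[ℚ] κ) → Γ → Prop)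
    (hc : ∀ σ σ' γ, (∀ z ∈ E, σ z = σ' z) → c σ γ → c σ' γ)
    (ψ : (κ ≃ₐ[ℚ] κ) →* Γ) (hψ : FinLevel ψ) :
    ∃ δ C : ℝ, 0 < δ ∧ 0 ≤ C ∧ ∀ X : ℕ, 2 ≤ X →
      ({d : ℤ | d.natAbs ≤ X ∧
        ((∀ p : ℕ, p.Prime → (p : ℤ) ∣ d → p ∉ S → ∀ V : ValuationSubring κ,
          (p : κ) ∈ V.nonunits → ∀ σ, Dec V σ → c σ (ψ σ)) ∧
          ∃ σ, ¬ c σ (ψ σ))}.ncard : ℝ) ≤ C * X * (Real.log X) ^ (-δ) := by
  by_cases hσ : ∃ σ, ¬ c σ (ψ σ)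
  · obtain ⟨σ₀, hσ₀⟩ := hσ
    obtain ⟨Eψ, hfin, hker⟩ := hψ
    haveI := hE
    haveI := hfin
    have hsup : FiniteDimensional ℚ (E ⊔ Eψ : IntermediateField ℚ κ) :=
      IntermediateField.finiteDimensional_sup E Eψ
    obtain ⟨δ, C, hδ, hB⟩ := hCHQ κ S (E ⊔ Eψ) hsup σ₀
    obtain ⟨C', hC'⟩ := hSIEVQ (ChebSet S (E ⊔ Eψ) σ₀) (fun p hp => hp.1) δ C hδ hB
    refine ⟨δ, |C'|, hδ, abs_nonneg _, fun X hX => ?_⟩
    have hsub : {d : ℤ | d.natAbs ≤ X ∧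
        ((∀ p : ℕ, p.Prime → (p : ℤ) ∣ d → p ∉ S → ∀ V : ValuationSubring κ,
          (p : κ) ∈ V.nonunits → ∀ σ, Dec V σ → c σ (ψ σ)) ∧
          ∃ σ, ¬ c σ (ψ σ))} ⊆
        {d : ℤ | d.natAbs ≤ X ∧ ∀ p ∈ ChebSet S (E ⊔ Eψ) σ₀, ¬ (p : ℤ) ∣ d} := by
      intro d hd
      refine ⟨hd.1, fun p hp hpd => hσ₀ ?_⟩
      obtain ⟨hp1, hp2, V, hV, φ, hφ, hz⟩ := hp
      have h1 := hd.2.1 p hp1 hpd hp2 V hV φ hφ
      have h2 : ψ (σ₀⁻¹ * φ) = 1 := by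
        refine hker _ ?_
        rw [IntermediateField.mem_fixingSubgroup_iff]
        intro z hzE
        have h3 : φ z = σ₀ z := hz z ((le_sup_right : Eψ ≤ E ⊔ Eψ) hzE)
        rw [AlgEquiv.mul_apply, h3, AlgEquiv.aut_inv]
        exact σ₀.symm_apply_apply z
      have h4 : ψ φ = ψ σ₀ := by
        rw [map_mul, map_inv] at h2
        exact (inv_mul_eq_one.mp h2).symm
      rw [h4] at h1
      exact hc φ σ₀ _ (fun z hzE => hz z ((le_sup_left : E ≤ E ⊔ Eψ) hzE)) h1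
    have h5 : ({d : ℤ | d.natAbs ≤ X ∧
        ((∀ p : ℕ, p.Prime → (p : ℤ) ∣ d → p ∉ S → ∀ V : ValuationSubring κ,
          (p : κ) ∈ V.nonunits → ∀ σ, Dec V σ → c σ (ψ σ)) ∧
          ∃ σ, ¬ c σ (ψ σ))}.ncard : ℝ) ≤
        ({d : ℤ | d.natAbs ≤ X ∧ ∀ p ∈ ChebSet S (E ⊔ Eψ) σ₀, ¬ (p : ℤ) ∣ d}.ncard : ℝ) := by
      exact_mod_cast Set.ncard_le_ncard hsub (fin_box X _)
    refine h5.trans ((hC' X hX).trans ?_)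
    have hX' : (2 : ℝ) ≤ X := by exact_mod_cast hX
    have hL0 : 0 < Real.log X := Real.log_pos (by linarith)
    apply mul_le_mul_of_nonneg_right _ (Real.rpow_pos_of_pos hL0 _).le
    exact mul_le_mul_of_nonneg_right (le_abs_self _) (by linarith)
  · refine ⟨1, 0, one_pos, le_rfl, fun X _ => ?_⟩
    have hempty : {d : ℤ | d.natAbs ≤ X ∧
        ((∀ p : ℕ, p.Prime → (p : ℤ) ∣ d → p ∉ S → ∀ V : ValuationSubring κ,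
          (p : κ) ∈ V.nonunits → ∀ σ, Dec V σ → c σ (ψ σ)) ∧
          ∃ σ, ¬ c σ (ψ σ))} = ∅ := by
      ext d
      simp only [Set.mem_setOf_eq, Set.mem_empty_iff_false, iff_false]
      exact fun h => hσ h.2.2
    rw [hempty, Set.ncard_empty]
    simp

/-- finite unions of sets of integers -/
theorem manyQ {ι : Type} (s : Finset ι) (P : ι → ℤ → Prop)
    (h : ∀ i ∈ s, ∃ δ C : ℝ, 0 < δ ∧ 0 ≤ C ∧ ∀ X : ℕ, 2 ≤ X →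
      ({d : ℤ | d.natAbs ≤ X ∧ P i d}.ncard : ℝ) ≤ C * X * (Real.log X) ^ (-δ)) :
    ∃ δ C : ℝ, 0 < δ ∧ 0 ≤ C ∧ ∀ X : ℕ, 2 ≤ X →
      ({d : ℤ | d.natAbs ≤ X ∧ ∃ i ∈ s, P i d}.ncard : ℝ) ≤ C * X * (Real.log X) ^ (-δ) := by
  classical
  induction s using Finset.induction_on with
  | empty =>
    refine ⟨1, 0, one_pos, le_rfl, fun X _ => ?_⟩
    have hempty : {d : ℤ | d.natAbs ≤ X ∧ ∃ i ∈ (∅ : Finset ι), P i d} = ∅ := by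
      ext d; simp
    rw [hempty, Set.ncard_empty]
    simp
  | insert a s ha ih =>
    obtain ⟨δ₁, C₁, hδ₁, hC₁, h1⟩ := ih fun i hi => h i (Finset.mem_insert_of_mem hi)
    obtain ⟨δ₂, C₂, hδ₂, hC₂, h2⟩ := h a (Finset.mem_insert_self a s)
    obtain ⟨K₁, hK₁, hK₁'⟩ := logpow (min δ₁ δ₂) δ₁ (min_le_left _ _)
    obtain ⟨K₂, hK₂, hK₂'⟩ := logpow (min δ₁ δ₂) δ₂ (min_le_right _ _)
    refine ⟨min δ₁ δ₂, C₁ * K₁ + C₂ * K₂, lt_min hδ₁ hδ₂,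
      add_nonneg (mul_nonneg hC₁ hK₁) (mul_nonneg hC₂ hK₂), fun X hX => ?_⟩
    have hX' : (0 : ℝ) ≤ X := Nat.cast_nonneg _
    have h3 := (h1 X hX).trans (mul_le_mul_of_nonneg_left (hK₁' X hX) (mul_nonneg hC₁ hX'))
    have h4 := (h2 X hX).trans (mul_le_mul_of_nonneg_left (hK₂' X hX) (mul_nonneg hC₂ hX'))
    have hsub : {d : ℤ | d.natAbs ≤ X ∧ ∃ i ∈ insert a s, P i d} ⊆
        {d : ℤ | d.natAbs ≤ X ∧ P a d} ∪ {d : ℤ | d.natAbs ≤ X ∧ ∃ i ∈ s, P i d} := by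
      rintro d ⟨hd, i, hi, hP⟩
      rcases Finset.mem_insert.mp hi with rfl | hi
      · exact Or.inl ⟨hd, hP⟩
      · exact Or.inr ⟨hd, i, hi, hP⟩
    have h5 : {d : ℤ | d.natAbs ≤ X ∧ ∃ i ∈ insert a s, P i d}.ncard ≤
        {d : ℤ | d.natAbs ≤ X ∧ P a d}.ncard +
          {d : ℤ | d.natAbs ≤ X ∧ ∃ i ∈ s, P i d}.ncard :=
      (Set.ncard_le_ncard hsub ((fin_box X _).union (fin_box X _))).trans (Set.ncard_union_le _ _)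
    have h6 : ({d : ℤ | d.natAbs ≤ X ∧ ∃ i ∈ insert a s, P i d}.ncard : ℝ) ≤
        ({d : ℤ | d.natAbs ≤ X ∧ P a d}.ncard : ℝ) +
          ({d : ℤ | d.natAbs ≤ X ∧ ∃ i ∈ s, P i d}.ncard : ℝ) := by exact_mod_cast h5
    have h7 : (C₁ * K₁ + C₂ * K₂) * X * (Real.log X) ^ (-(min δ₁ δ₂)) =
        C₁ * X * (K₁ * (Real.log X) ^ (-(min δ₁ δ₂))) +
          C₂ * X * (K₂ * (Real.log X) ^ (-(min δ₁ δ₂))) := by ring
    rw [h7]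
    linarith

/-- the number of the bad integers -/
theorem acq (hHMF : S_HMF) (hCHQ : S_CHQ) (hSIEVQ : S_SIEVQ) : S_ACQ := by
  intro κ Γ _ _ _ _ _ S E hE c hc
  have hF := hHMF κ Γ S
  obtain ⟨δ, C, hδ, -, hX₀⟩ := manyQ hF.toFinset
    (fun (ψ : (κ ≃ₐ[ℚ] κ) →* Γ) (d : ℤ) =>
      (∀ p : ℕ, p.Prime → (p : ℤ) ∣ d → p ∉ S → ∀ V : ValuationSubring κ,
        (p : κ) ∈ V.nonunits → ∀ σ, Dec V σ → c σ (ψ σ)) ∧ ∃ σ, ¬ c σ (ψ σ))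
    (fun ψ hψ => by
      have h := (hF.mem_toFinset.mp hψ).1
      exact oneQ hCHQ hSIEVQ S E hE c hc ψ h)
  refine ⟨δ, C, hδ, fun X hX => ?_⟩
  have h1 := hX₀ X hX
  have h2 : {d : ℤ | d.natAbs ≤ X ∧ d ∈ BadSet S c} ⊆
      {d : ℤ | d.natAbs ≤ X ∧ ∃ ψ ∈ hF.toFinset,
        ((∀ p : ℕ, p.Prime → (p : ℤ) ∣ d → p ∉ S → ∀ V : ValuationSubring κ,
          (p : κ) ∈ V.nonunits → ∀ σ, Dec V σ → c σ (ψ σ)) ∧ ∃ σ, ¬ c σ (ψ σ))} := by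
    rintro d ⟨hd, ψ, h3, h4, h5, h6⟩
    exact ⟨hd, ψ, hF.mem_toFinset.mpr ⟨h3, h4⟩, h5, h6⟩
  have h3 : ({d : ℤ | d.natAbs ≤ X ∧ d ∈ BadSet S c}.ncard : ℝ) ≤
      ({d : ℤ | d.natAbs ≤ X ∧ ∃ ψ ∈ hF.toFinset,
        ((∀ p : ℕ, p.Prime → (p : ℤ) ∣ d → p ∉ S → ∀ V : ValuationSubring κ,
          (p : κ) ∈ V.nonunits → ∀ σ, Dec V σ → c σ (ψ σ)) ∧ ∃ σ, ¬ c σ (ψ σ))}.ncard : ℝ) := by
    exact_mod_cast Set.ncard_le_ncard h2 (fin_box X _)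
  exact h3.trans h1

end Pool.Agent.Y547.PCQ
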